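import Mathlib

/-!
# The algebra spanned by a solution of the system has dimension at most `2^(n+1) - 1`
-/

set_option autoImplicit false

namespace Pool.Agent.Lib_helper91.QUI

open Finset

variable {L : Type*} [Field L] [CharZero L] {l u : ℚ} {n : ℕ} {w : ℕ → L}

/-- The monomials. -/
def mon (w : ℕ → L) (T : Finset ℕ) : L := ∏ i ∈ T, w i

theorem cast_smul (q : ℚ) (x : L) : (q : L) * x = q • x := by
  rw [Algebra.smul_def]; simp

theorem sq_mem (hl : l ≠ 0) (hlu : l ^ (n + 1) * u ≠ 1)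
    (hrel : ∀ i < n, w i ^ 2 = (l : L) * w (i + 1) ^ 2 + w (i + 1))
    (hend : w n ^ 2 = (l : L) * ((u : L) * w 0 ^ 2 + w 0)) {i : ℕ} (hi : i ≤ n) :
    w i ^ 2 ∈ Submodule.span ℚ (w '' {j | j ≤ n}) := by
  set U := Submodule.span ℚ (w '' {j | j ≤ n})
  have hw : ∀ j ≤ n, w j ∈ U := fun j hj => Submodule.subset_span ⟨j, hj, rfl⟩
  have h1 : ∀ j ≤ n, w 0 ^ 2 - (l : L) ^ j * w j ^ 2 ∈ U := by
    intro j
    induction j with
    | zero => intro _; simp
    | succ j ih =>
      intro hj
      have e : w 0 ^ 2 - (l : L) ^ (j + 1) * w (j + 1) ^ 2 =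
          (w 0 ^ 2 - (l : L) ^ j * w j ^ 2) + (l ^ j : ℚ) • w (j + 1) := by
        rw [hrel j (by omega), ← cast_smul]
        push_cast
        ring
      rw [e]
      exact U.add_mem (ih (by omega)) (U.smul_mem _ (hw _ hj))
  have h0 : w 0 ^ 2 ∈ U := by
    have h2 := h1 n le_rfl
    rw [hend] at h2
    have e : w 0 ^ 2 - (l : L) ^ n * ((l : L) * ((u : L) * w 0 ^ 2 + w 0)) =
        (1 - l ^ (n + 1) * u : ℚ) • w 0 ^ 2 - (l ^ (n + 1) : ℚ) • w 0 := by
      rw [← cast_smul, ← cast_smul]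
      push_cast
      ring
    rw [e] at h2
    have h3 := U.add_mem h2 (U.smul_mem (l ^ (n + 1) : ℚ) (hw 0 (Nat.zero_le _)))
    rw [sub_add_cancel] at h3
    have hne : (1 - l ^ (n + 1) * u : ℚ) ≠ 0 := sub_ne_zero.2 (Ne.symm hlu)
    exact (U.smul_mem_iff hne).1 h3
  have h4 := U.sub_mem h0 (h1 i hi)
  rw [sub_sub_cancel] at h4
  have h5 : (l ^ i : ℚ) • w i ^ 2 ∈ U := by
    rw [← cast_smul]; push_cast; exact h4
  exact (U.smul_mem_iff (pow_ne_zero _ hl)).1 h5

theorem mul_mem_span (hl : l ≠ 0) (hlu : l ^ (n + 1) * u ≠ 1)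
    (hrel : ∀ i < n, w i ^ 2 = (l : L) * w (i + 1) ^ 2 + w (i + 1))
    (hend : w n ^ 2 = (l : L) * ((u : L) * w 0 ^ 2 + w 0)) (T : Finset ℕ)
    (hT : T ⊆ range (n + 1)) {i : ℕ} (hi : i ≤ n) :
    w i * mon w T ∈ Submodule.span ℚ (mon w '' {T | T ⊆ range (n + 1)}) := by
  set V := Submodule.span ℚ (mon w '' {T | T ⊆ range (n + 1)})
  have hV : ∀ T ⊆ range (n + 1), mon w T ∈ V := fun T hT => Submodule.subset_span ⟨T, hT, rfl⟩
  induction hc : T.card using Nat.strong_induction_on generalizing T i with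
  | _ c ih =>
    by_cases hiT : i ∈ T
    · have e : w i * mon w T = w i ^ 2 * mon w (T.erase i) := by
        unfold mon
        rw [← Finset.mul_prod_erase T w hiT]
        ring
      rw [e]
      have hsub : T.erase i ⊆ range (n + 1) := (Finset.erase_subset _ _).trans hT
      have hcard : (T.erase i).card < c := by
        rw [← hc]; exact Finset.card_erase_lt_of_mem hiT
      have key : ∀ x ∈ Submodule.span ℚ (w '' {j | j ≤ n}), x * mon w (T.erase i) ∈ V := by
        intro x hx
        induction hx using Submodule.span_induction with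
        | mem x hx =>
          obtain ⟨j, hj, rfl⟩ := hx
          exact ih _ hcard (T.erase i) hsub hj rfl
        | zero => simp
        | add x y _ _ hx hy => rw [add_mul]; exact V.add_mem hx hy
        | smul a x _ hx => rw [smul_mul_assoc]; exact V.smul_mem a hx
      exact key _ (sq_mem hl hlu hrel hend hi)
    · have e : w i * mon w T = mon w (insert i T) := by
        unfold mon
        rw [Finset.prod_insert hiT]
      rw [e]
      exact hV _ (Finset.insert_subset (by simpa using Nat.lt_succ_of_le hi) hT)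

theorem top_relation (hrel : ∀ i < n, w i ^ 2 = (l : L) * w (i + 1) ^ 2 + w (i + 1))
    (hend : w n ^ 2 = (l : L) * ((u : L) * w 0 ^ 2 + w 0)) (hne : ∀ i ≤ n, w i ≠ 0) :
    mon w (range (n + 1)) = (l : L) * ((1 + (u : L) * w 0) * ∏ i ∈ range n, (1 + (l : L) * w (i + 1))) := by
  have hp : mon w (range (n + 1)) ≠ 0 := by
    unfold mon
    exact Finset.prod_ne_zero_iff.2 fun i hi => hne i (Nat.lt_succ_iff.1 (mem_range.1 hi))
  apply mul_left_cancel₀ hp
  have h1 : mon w (range (n + 1)) * mon w (range (n + 1)) = ∏ i ∈ range (n + 1), w i ^ 2 := by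
    unfold mon
    rw [← Finset.prod_mul_distrib]
    exact Finset.prod_congr rfl fun i _ => by ring
  rw [h1, Finset.prod_range_succ, hend]
  have h2 : ∏ i ∈ range n, w i ^ 2 = (∏ i ∈ range n, w (i + 1)) *
      ∏ i ∈ range n, (1 + (l : L) * w (i + 1)) := by
    rw [← Finset.prod_mul_distrib]
    exact Finset.prod_congr rfl fun i hi => by rw [hrel i (mem_range.1 hi)]; ring
  have h3 : mon w (range (n + 1)) = (∏ i ∈ range n, w (i + 1)) * w 0 := by
    unfold mon
    rw [Finset.prod_range_succ']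
  rw [h2, h3]
  ring

theorem top_mem (hlu : l ^ (n + 1) * u ≠ 1)
    (hrel : ∀ i < n, w i ^ 2 = (l : L) * w (i + 1) ^ 2 + w (i + 1))
    (hend : w n ^ 2 = (l : L) * ((u : L) * w 0 ^ 2 + w 0)) (hne : ∀ i ≤ n, w i ≠ 0) :
    mon w (range (n + 1)) ∈ Submodule.span ℚ
      (mon w '' ((range (n + 1)).powerset.erase (range (n + 1)) : Finset (Finset ℕ))) := by
  set V := Submodule.span ℚ
      (mon w '' ((range (n + 1)).powerset.erase (range (n + 1)) : Finset (Finset ℕ)))
  let c : ℕ → ℚ := fun i => if i = 0 then u else l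
  have h1 : (1 + (u : L) * w 0) * ∏ i ∈ range n, (1 + (l : L) * w (i + 1)) =
      ∑ T ∈ (range (n + 1)).powerset, (∏ i ∈ T, c i : ℚ) • mon w T := by
    have h2 : ∏ i ∈ range (n + 1), (1 + (c i : L) * w i) =
        (1 + (u : L) * w 0) * ∏ i ∈ range n, (1 + (l : L) * w (i + 1)) := by
      rw [Finset.prod_range_succ']
      simp [c, mul_comm]
    rw [← h2, Finset.prod_one_add]
    refine Finset.sum_congr rfl fun T _ => ?_
    rw [Finset.prod_mul_distrib, ← cast_smul]
    push_cast
    rfl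
  have h3 := top_relation hrel hend hne
  rw [h1, ← Finset.sum_erase_add _ _ (Finset.mem_powerset_self (range (n + 1))), mul_add,
    cast_smul, cast_smul, smul_smul] at h3
  have h4 : (∏ i ∈ range (n + 1), c i : ℚ) = l ^ n * u := by
    rw [Finset.prod_range_succ']
    simp [c]
  rw [h4] at h3
  have h5 : (1 - l ^ (n + 1) * u : ℚ) • mon w (range (n + 1)) ∈ V := by
    have e : (1 - l ^ (n + 1) * u : ℚ) • mon w (range (n + 1)) =
        l • ∑ T ∈ (range (n + 1)).powerset.erase (range (n + 1)), (∏ i ∈ T, c i : ℚ) • mon w T := by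
      rw [sub_smul, one_smul, sub_eq_iff_eq_add]
      rw [show (l ^ (n + 1) * u : ℚ) = l * (l ^ n * u) by ring]
      exact h3
    rw [e]
    exact V.smul_mem _ (V.sum_mem fun T hT => V.smul_mem _ (Submodule.subset_span ⟨T, hT, rfl⟩))
  have hne' : (1 - l ^ (n + 1) * u : ℚ) ≠ 0 := sub_ne_zero.2 (Ne.symm hlu)
  exact (V.smul_mem_iff hne').1 h5

theorem adjoin_le (hl : l ≠ 0) (hlu : l ^ (n + 1) * u ≠ 1)
    (hrel : ∀ i < n, w i ^ 2 = (l : L) * w (i + 1) ^ 2 + w (i + 1))
    (hend : w n ^ 2 = (l : L) * ((u : L) * w 0 ^ 2 + w 0)) (hne : ∀ i ≤ n, w i ≠ 0) :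
    Subalgebra.toSubmodule (Algebra.adjoin ℚ (w '' {j | j ≤ n})) ≤ Submodule.span ℚ
      (mon w '' ((range (n + 1)).powerset.erase (range (n + 1)) : Finset (Finset ℕ))) := by
  have hV : Submodule.span ℚ (mon w '' {T | T ⊆ range (n + 1)}) ≤ Submodule.span ℚ
      (mon w '' ((range (n + 1)).powerset.erase (range (n + 1)) : Finset (Finset ℕ))) := by
    rw [Submodule.span_le]
    rintro _ ⟨T, hT, rfl⟩
    by_cases h : T = range (n + 1)
    · rw [h]; exact top_mem hlu hrel hend hne
    · refine Submodule.subset_span ⟨T, ?_, rfl⟩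
      rw [Finset.mem_coe, Finset.mem_erase, Finset.mem_powerset]
      exact ⟨h, hT⟩
  refine le_trans ?_ hV
  rw [Algebra.adjoin_eq_span, Submodule.span_le]
  intro x hx
  induction hx using Submonoid.closure_induction_left with
  | one => exact Submodule.subset_span ⟨∅, by simp, by simp [mon]⟩
  | mul_left x hx y _ ih =>
    obtain ⟨i, hi, rfl⟩ := hx
    have key : ∀ z ∈ Submodule.span ℚ (mon w '' {T | T ⊆ range (n + 1)}),
        w i * z ∈ Submodule.span ℚ (mon w '' {T | T ⊆ range (n + 1)}) := by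
      intro z hz
      induction hz using Submodule.span_induction with
      | mem x hx =>
        obtain ⟨T, hT, rfl⟩ := hx
        exact mul_mem_span hl hlu hrel hend T hT hi
      | zero => simp
      | add x y _ _ hx hy => rw [mul_add]; exact Submodule.add_mem _ hx hy
      | smul a x _ hx => rw [mul_smul_comm]; exact Submodule.smul_mem _ a hx
    exact key _ ih

/-- The field generated by a solution: dimension at most `2^(n+1) - 1`. -/
theorem adjoin_finite (hl : l ≠ 0) (hlu : l ^ (n + 1) * u ≠ 1)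
    (hrel : ∀ i < n, w i ^ 2 = (l : L) * w (i + 1) ^ 2 + w (i + 1))
    (hend : w n ^ 2 = (l : L) * ((u : L) * w 0 ^ 2 + w 0)) (hne : ∀ i ≤ n, w i ≠ 0) :
    FiniteDimensional ℚ (IntermediateField.adjoin ℚ (w '' {j | j ≤ n})) ∧
      Module.finrank ℚ (IntermediateField.adjoin ℚ (w '' {j | j ≤ n})) ≤ 2 ^ (n + 1) - 1 := by
  classical
  set V := Submodule.span ℚ
      (mon w '' ((range (n + 1)).powerset.erase (range (n + 1)) : Finset (Finset ℕ)))
  have hle := adjoin_le hl hlu hrel hend hne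
  have hfin : (mon w '' ((range (n + 1)).powerset.erase (range (n + 1)) :
      Finset (Finset ℕ))).Finite := Set.toFinite _
  have : FiniteDimensional ℚ V := FiniteDimensional.span_of_finite ℚ hfin
  have hVr : Module.finrank ℚ V ≤ 2 ^ (n + 1) - 1 := by
    have h1 : V = Submodule.span ℚ
        ((((range (n + 1)).powerset.erase (range (n + 1))).image (mon w) : Finset L) : Set L) := by
      rw [Finset.coe_image]
    have h2 : Module.finrank ℚ V ≤ (((range (n + 1)).powerset.erase (range (n + 1))).image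
        (mon w)).card := by
      rw [h1]
      exact finrank_span_finset_le_card _
    refine h2.trans (Finset.card_image_le.trans ?_)
    rw [Finset.card_erase_of_mem (Finset.mem_powerset_self _), Finset.card_powerset,
      Finset.card_range]
  have : FiniteDimensional ℚ (Subalgebra.toSubmodule (Algebra.adjoin ℚ (w '' {j | j ≤ n}))) :=
    Submodule.finiteDimensional_of_le hle
  have hA : FiniteDimensional ℚ (Algebra.adjoin ℚ (w '' {j | j ≤ n})) := this
  have halg : ∀ x ∈ w '' {j | j ≤ n}, IsAlgebraic ℚ x := by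
    intro x hx
    have h1 : IsIntegral ℚ (⟨x, Algebra.subset_adjoin hx⟩ : Algebra.adjoin ℚ (w '' {j | j ≤ n})) :=
      Algebra.IsIntegral.isIntegral _
    exact (h1.map (Algebra.adjoin ℚ (w '' {j | j ≤ n})).val).isAlgebraic
  have heq := IntermediateField.adjoin_toSubalgebra_of_isAlgebraic (F := ℚ) halg
  have hr : Module.finrank ℚ (Algebra.adjoin ℚ (w '' {j | j ≤ n})) ≤ 2 ^ (n + 1) - 1 :=
    (Submodule.finrank_mono hle).trans hVr
  let e : (IntermediateField.adjoin ℚ (w '' {j | j ≤ n})).toSubalgebra ≃ₐ[ℚ]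
      Algebra.adjoin ℚ (w '' {j | j ≤ n}) := Subalgebra.equivOfEq _ _ heq
  have e' : IntermediateField.adjoin ℚ (w '' {j | j ≤ n}) ≃ₗ[ℚ]
      Algebra.adjoin ℚ (w '' {j | j ≤ n}) := e.toLinearEquiv
  exact ⟨Module.Finite.equiv e'.symm, e'.finrank_eq ▸ hr⟩

end Pool.Agent.Lib_helper91.QUI
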