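import Mathlib

/-!
# Total ramification: lower bound for the degree
-/

set_option autoImplicit false

namespace Pool.Agent.Lib_helper91.QUI

open Finset Polynomial

variable {K : Type*} [Field K] {Γ : Type*} [LinearOrderedCommGroupWithZero Γ]

theorem val_int_eq (v : Valuation K Γ) {l : ℕ} (hl : l.Prime)
    (hun : ∀ m : ℤ, ¬ (l : ℤ) ∣ m → v (m : K) = 1) {c : ℤ} (hc : c ≠ 0) :
    ∃ e : ℕ, v (c : K) = v (l : K) ^ e := by
  have hf : FiniteMultiplicity (l : ℤ) c := Int.finiteMultiplicity_iff.2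
    ⟨by simpa using hl.ne_one, hc⟩
  obtain ⟨m, hcm, hm⟩ := hf.exists_eq_pow_mul_and_not_dvd
  refine ⟨multiplicity (l : ℤ) c, ?_⟩
  have h := congrArg (fun z : ℤ => v (z : K)) hcm
  simp only [Int.cast_mul, Int.cast_pow, Int.cast_natCast, map_mul, map_pow] at h
  rw [h, hun m hm, mul_one]

theorem degree_lower (v : Valuation K Γ) {l : ℕ} (hl : l.Prime)
    (hun : ∀ m : ℤ, ¬ (l : ℤ) ∣ m → v (m : K) = 1) {x : Γ} (hx0 : x ≠ 0) (hx1 : x < 1) {d a : ℕ}
    (had : Nat.Coprime a d) (hvl : v (l : K) = x ^ d) {w : K} (hw : v w = x ^ a)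
    {g : ℤ[X]} (hg : g ≠ 0) (hgw : aeval w g = 0) : d ≤ g.natDegree := by
  by_contra hd
  push Not at hd
  have hinj : Function.Injective (fun n : ℕ => x ^ n) := by
    have : StrictAnti (fun n : ℕ => x ^ n) :=
      pow_right_strictAnti₀ (zero_lt_iff.2 hx0) hx1
    exact this.injective
  have hterm : ∀ j ∈ g.support, ∃ e : ℕ, v ((g.coeff j : K) * w ^ j) = x ^ (d * e + a * j) := by
    intro j hj
    obtain ⟨e, he⟩ := val_int_eq v hl hun (mem_support_iff.1 hj)
    refine ⟨e, ?_⟩
    rw [map_mul, map_pow, he, hvl, hw, ← pow_mul, ← pow_mul, ← pow_add]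
  have hdist : ∀ i ∈ g.support, ∀ j ∈ g.support,
      v ((g.coeff i : K) * w ^ i) = v ((g.coeff j : K) * w ^ j) → i = j := by
    intro i hi j hj hij
    obtain ⟨e, he⟩ := hterm i hi
    obtain ⟨f, hf⟩ := hterm j hj
    rw [he, hf] at hij
    have h1 : d * e + a * i = d * f + a * j := hinj hij
    have h2 : (a * i) ≡ (a * j) [MOD d] := by
      have h3 : d * e + a * i ≡ d * f + a * j [MOD d] := by rw [h1]
      have h4 : d * e + a * i ≡ a * i [MOD d] := by
        simp [Nat.ModEq]
      have h5 : d * f + a * j ≡ a * j [MOD d] := by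
        simp [Nat.ModEq]
      exact h4.symm.trans (h3.trans h5)
    have h6 : i ≡ j [MOD d] := Nat.ModEq.cancel_left_of_coprime (by rwa [Nat.gcd_comm]) h2
    exact Nat.ModEq.eq_of_lt_of_lt h6 ((le_natDegree_of_mem_supp i hi).trans_lt hd)
      ((le_natDegree_of_mem_supp j hj).trans_lt hd)
  have hne : g.support.Nonempty := Polynomial.support_nonempty.2 hg
  obtain ⟨i, hi, hmax⟩ := Finset.exists_max_image g.support
    (fun j => v ((g.coeff j : K) * w ^ j)) hne
  have hvi : v ((g.coeff i : K) * w ^ i) ≠ 0 := by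
    obtain ⟨e, he⟩ := hterm i hi
    rw [he]; exact pow_ne_zero _ hx0
  have hsum : aeval w g = (g.coeff i : K) * w ^ i +
      ∑ j ∈ g.support.erase i, (g.coeff j : K) * w ^ j := by
    rw [Finset.add_sum_erase _ (fun j => (g.coeff j : K) * w ^ j) hi, aeval_def, eval₂_eq_sum,
      Polynomial.sum]
    simp
  have hrest : v (∑ j ∈ g.support.erase i, (g.coeff j : K) * w ^ j) <
      v ((g.coeff i : K) * w ^ i) := by
    refine v.map_sum_lt hvi fun j hj => ?_
    refine lt_of_le_of_ne (hmax j (Finset.mem_of_mem_erase hj)) fun h => ?_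
    exact Finset.ne_of_mem_erase hj (hdist j (Finset.mem_of_mem_erase hj) i hi h)
  have h0 : v (aeval w g) = v ((g.coeff i : K) * w ^ i) := by
    rw [hsum]; exact v.map_add_eq_of_lt_left hrest
  rw [hgw, map_zero] at h0
  exact hvi h0.symm

/-- Valuations of a solution of the system. -/
theorem val_solution (v : Valuation K Γ) {l u : ℕ} (hvl : v (l : K) < 1) (hu : v (u : K) ≤ 1)
    {n : ℕ} {w : ℕ → K}
    (hrel : ∀ i < n, w i ^ 2 = (l : K) * w (i + 1) ^ 2 + w (i + 1))
    (hend : w n ^ 2 = (l : K) * ((u : K) * w 0 ^ 2 + w 0)) (hne : ∀ i ≤ n, w i ≠ 0) :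
    v (w 0) < 1 ∧ (∀ i ≤ n, v (w i) = v (w 0) ^ (2 ^ i)) ∧
      v (l : K) = v (w 0) ^ (2 ^ (n + 1) - 1) := by
  have hpos : ∀ i ≤ n, 0 < v (w i) := fun i hi => zero_lt_iff.2 (v.ne_zero_iff.2 (hne i hi))
  -- all `≤ 1`
  have h1 : ∀ i ≤ n, v (w i) ≤ 1 := by
    obtain ⟨j, hj, hmax⟩ := Finset.exists_max_image (range (n + 1)) (fun i => v (w i))
      ⟨0, by simp⟩
    have hmax' : ∀ i ≤ n, v (w i) ≤ v (w j) := fun i hi =>
      hmax i (mem_range.2 (Nat.lt_succ_of_le hi))
    have hj' : j ≤ n := Nat.lt_succ_iff.1 (mem_range.1 hj)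
    intro i hi
    refine (hmax' i hi).trans ?_
    by_contra hc
    push Not at hc
    set b := v (w j)
    have hb0 : 0 < b := hpos j hj'
    have hb2 : b < b ^ 2 := by
      rw [sq]; exact lt_mul_of_one_lt_left hb0 hc
    have hlb : v (l : K) * b ^ 2 < b ^ 2 := by
      have : 0 < b ^ 2 := pow_pos hb0 2
      calc v (l : K) * b ^ 2 < 1 * b ^ 2 := by
            exact (mul_lt_mul_iff_left₀ this).2 hvl
        _ = b ^ 2 := one_mul _
    rcases Nat.lt_or_ge j n with h | h
    · have e := congrArg v (hrel j h)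
      rw [map_pow] at e
      have h3 : v ((l : K) * w (j + 1) ^ 2 + w (j + 1)) < b ^ 2 := by
        refine v.map_add_lt ?_ ?_
        · rw [map_mul, map_pow]
          refine lt_of_le_of_lt ?_ hlb
          exact mul_le_mul_right (pow_le_pow_left₀ zero_le (hmax' _ h) 2) _
        · exact (hmax' _ h).trans_lt hb2
      exact absurd e h3.ne'
    · have hjn : j = n := le_antisymm hj' h
      have e := congrArg v hend
      rw [← hjn, map_pow, map_mul] at e
      have h3 : v ((u : K) * w 0 ^ 2 + w 0) ≤ b ^ 2 := by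
        refine (v.map_add _ _).trans (max_le ?_ ?_)
        · rw [map_mul, map_pow]
          calc v (u : K) * v (w 0) ^ 2 ≤ 1 * b ^ 2 :=
                mul_le_mul' hu (pow_le_pow_left₀ zero_le (hmax' 0 (Nat.zero_le _)) 2)
            _ = b ^ 2 := one_mul _
        · exact (hmax' 0 (Nat.zero_le _)).trans hb2.le
      have h4 : v (l : K) * v ((u : K) * w 0 ^ 2 + w 0) < b ^ 2 :=
        lt_of_le_of_lt (mul_le_mul_right h3 _) hlb
      exact absurd e h4.ne'
  -- all `< 1`
  have hn1 : v (w n) < 1 := by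
    have e := congrArg v hend
    rw [map_pow, map_mul] at e
    have h3 : v ((u : K) * w 0 ^ 2 + w 0) ≤ 1 := by
      refine (v.map_add _ _).trans (max_le ?_ (h1 0 (Nat.zero_le _)))
      rw [map_mul, map_pow]
      exact mul_le_one' hu (pow_le_one' (h1 0 (Nat.zero_le _)) 2)
    have h4 : v (w n) ^ 2 < 1 := by
      rw [e]
      exact lt_of_le_of_lt (mul_le_of_le_one_right' h3) hvl
    by_contra hc
    push Not at hc
    exact absurd (one_le_pow₀ hc) (not_le.2 h4)
  have h2 : ∀ m ≤ n, v (w (n - m)) < 1 := by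
    intro m
    induction m with
    | zero => intro _; simpa using hn1
    | succ m ih =>
      intro hm
      have e := congrArg v (hrel (n - (m + 1)) (by omega))
      have e2 : n - (m + 1) + 1 = n - m := by omega
      rw [e2, map_pow] at e
      have h4 : v (w (n - (m + 1))) ^ 2 < 1 := by
        rw [e]
        refine v.map_add_lt ?_ (ih (by omega))
        rw [map_mul, map_pow]
        exact lt_of_le_of_lt (mul_le_of_le_one_right' (pow_le_one' (ih (by omega)).le 2)) hvl
      by_contra hc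
      push Not at hc
      exact absurd (one_le_pow₀ hc) (not_le.2 h4)
  have h3 : ∀ i ≤ n, v (w i) < 1 := fun i hi => by
    have := h2 (n - i) (by omega)
    rwa [Nat.sub_sub_self hi] at this
  have hone : ∀ y : K, v y < 1 → v (1 + y) = 1 := fun y hy => by
    have := v.map_add_eq_of_lt_left (x := 1) (y := y) (by rwa [map_one])
    rwa [map_one] at this
  have h4 : ∀ i < n, v (w (i + 1)) = v (w i) ^ 2 := by
    intro i hi
    have e := congrArg v (hrel i hi)
    rw [show (l : K) * w (i + 1) ^ 2 + w (i + 1) = w (i + 1) * (1 + (l : K) * w (i + 1)) by ring,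
      map_pow, map_mul, hone _ (by
        rw [map_mul]
        exact lt_of_le_of_lt (mul_le_of_le_one_right' (h1 _ hi)) hvl), mul_one] at e
    exact e.symm
  have h5 : ∀ i ≤ n, v (w i) = v (w 0) ^ (2 ^ i) := by
    intro i
    induction i with
    | zero => intro _; simp
    | succ i ih =>
      intro hi
      rw [h4 i (by omega), ih (by omega), ← pow_mul, pow_succ]
  refine ⟨h3 0 (Nat.zero_le _), h5, ?_⟩
  have e := congrArg v hend
  rw [show (l : K) * ((u : K) * w 0 ^ 2 + w 0) = (l : K) * w 0 * (1 + (u : K) * w 0) by ring,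
    map_pow, map_mul, map_mul, hone _ (by
      rw [map_mul]
      exact lt_of_le_of_lt (mul_le_of_le_one_left' hu) (h3 0 (Nat.zero_le _))), mul_one,
    h5 n le_rfl, ← pow_mul, ← pow_succ] at e
  have hw0 : v (w 0) ≠ 0 := (hpos 0 (Nat.zero_le _)).ne'
  have e2 : v (w 0) ^ (2 ^ (n + 1)) = v (w 0) ^ (2 ^ (n + 1) - 1) * v (w 0) := by
    rw [← pow_succ, Nat.sub_add_cancel Nat.one_le_two_pow]
  rw [e2] at e
  exact (mul_right_cancel₀ hw0 e).symm

end Pool.Agent.Lib_helper91.QUI
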