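import Pool.Agent.Lib_helper91.QUI.TowerReal
import Pool.Agent.Lib_helper91.QUI.TowerSpan
import Pool.Agent.Lib_helper91.QUI.TowerVal

/-!
# Number fields of degree `2^k - 1` with a cycle of `k` conics
-/

set_option autoImplicit false

namespace Pool.Agent.Lib_helper91.QUI

open Finset Polynomial IsDedekindDomain NumberField

open scoped WithZero

theorem exists_val (K : Type*) [Field K] [NumberField K] {l : ℕ} (hl : l.Prime) :
    ∃ v : Valuation K ℤᵐ⁰, v (l : K) < 1 ∧ ∀ m : ℤ, ¬ (l : ℤ) ∣ m → v (m : K) = 1 := by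
  have hp : Prime (l : ℤ) := Nat.prime_iff_prime_int.1 hl
  have hP : (Ideal.span {(l : ℤ)}).IsPrime :=
    (Ideal.span_singleton_prime hp.ne_zero).2 hp
  obtain ⟨Q, hQ, hQc⟩ := Ideal.exists_ideal_over_prime_of_isIntegral_of_isDomain
    (S := 𝓞 K) (Ideal.span {(l : ℤ)}) (by
      rw [(RingHom.injective_iff_ker_eq_bot _).1 (FaithfulSMul.algebraMap_injective ℤ (𝓞 K))]
      exact bot_le)
  have hmem : ∀ m : ℤ, (m : 𝓞 K) ∈ Q ↔ (l : ℤ) ∣ m := by
    intro m
    rw [← Ideal.mem_span_singleton, ← hQc, Ideal.mem_comap]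
    simp
  have hlQ : ((l : ℤ) : 𝓞 K) ∈ Q := (hmem l).2 dvd_rfl
  have hQ0 : Q ≠ ⊥ := by
    intro h
    rw [h, Ideal.mem_bot] at hlQ
    have : (l : 𝓞 K) = 0 := by exact_mod_cast hlQ
    exact hl.ne_zero (by exact_mod_cast this)
  let P : HeightOneSpectrum (𝓞 K) := ⟨Q, hQ, hQ0⟩
  refine ⟨P.valuation K, ?_, fun m hm => ?_⟩
  · have h := (P.valuation_lt_one_iff_mem (K := K) ((l : ℤ) : 𝓞 K)).2 hlQ
    simpa using h
  · have h := (P.valuation_eq_one_iff_notMem (K := K) (r := (m : 𝓞 K))).2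
      (fun h => hm ((hmem m).1 h))
    simpa using h

theorem natDegree_minpoly_ge {K : Type*} [Field K] [NumberField K] {w : K} {d : ℕ}
    (h : ∀ g : ℤ[X], g ≠ 0 → aeval w g = 0 → d ≤ g.natDegree) :
    d ≤ (minpoly ℚ w).natDegree := by
  have hint : IsIntegral ℚ w := Algebra.IsIntegral.isIntegral w
  obtain ⟨b, hb⟩ := IsLocalization.integerNormalization_map_to_map (nonZeroDivisors ℤ)
    (minpoly ℚ w)
  set g := IsLocalization.integerNormalization (nonZeroDivisors ℤ) (minpoly ℚ w)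
  have hb0 : (b : ℤ) ≠ 0 := nonZeroDivisors.ne_zero b.2
  have hb1 : ((b : ℤ) : ℚ) ≠ 0 := by exact_mod_cast hb0
  have hmap : g.map (algebraMap ℤ ℚ) = C ((b : ℤ) : ℚ) * minpoly ℚ w := by
    rw [hb]
    ext i
    simp [Algebra.smul_def]
  have hdeg : g.natDegree = (minpoly ℚ w).natDegree := by
    rw [← natDegree_map_eq_of_injective (FaithfulSMul.algebraMap_injective ℤ ℚ) g, hmap,
      natDegree_C_mul hb1]
  rw [← hdeg]
  apply h
  · intro h0
    rw [h0, Polynomial.map_zero] at hmap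
    exact mul_ne_zero (C_ne_zero.2 hb1) (minpoly.ne_zero hint) hmap.symm
  · have : aeval w (g.map (algebraMap ℤ ℚ)) = 0 := by
      rw [hmap, map_mul, minpoly.aeval, mul_zero]
    rwa [aeval_map_algebraMap] at this

/-- **Part 4.** For every `k ≥ 2`, every prime `l` and every `u ≥ 1` there is a number field of
degree `2^k - 1` with generators `w_0, …, w_{k-1}` such that `w_i^2 = l w_{i+1}^2 + w_{i+1}` and
`w_{k-1}^2 = l (u w_0^2 + w_0)`. -/
theorem tower (k : ℕ) (hk : 2 ≤ k) (l : ℕ) (hl : l.Prime) (u : ℕ) (hu : 1 ≤ u) :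
    ∃ (K : Type) (_ : Field K) (_ : NumberField K), Module.finrank ℚ K = 2 ^ k - 1 ∧
      ∃ w : ℕ → K, (∀ i < k, IntermediateField.adjoin ℚ {w i} = ⊤) ∧
        (∀ i, i + 1 < k → w i ^ 2 = (l : K) * w (i + 1) ^ 2 + w (i + 1)) ∧
        w (k - 1) ^ 2 = (l : K) * ((u : K) * w 0 ^ 2 + w 0) := by
  obtain ⟨n, rfl⟩ : ∃ n, k = n + 1 := ⟨k - 1, by omega⟩
  have hn : 1 ≤ n := by omega
  obtain ⟨w, hw0, hrel, hend⟩ := real_solution (l : ℝ) (u : ℝ) (by exact_mod_cast hl.two_le)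
    (by exact_mod_cast hu) n hn
  have hl0 : (l : ℚ) ≠ 0 := by exact_mod_cast hl.ne_zero
  have hlu : ((l : ℚ)) ^ (n + 1) * (u : ℚ) ≠ 1 := by
    have h1 : 2 ≤ l ^ (n + 1) := hl.two_le.trans (Nat.le_self_pow (by omega) l)
    have h2 : 2 ≤ l ^ (n + 1) * u := h1.trans (Nat.le_mul_of_pos_right _ hu)
    intro h
    have : l ^ (n + 1) * u = 1 := by exact_mod_cast h
    omega
  obtain ⟨hfd, hfr⟩ := adjoin_finite (L := ℝ) (l := (l : ℚ)) (u := (u : ℚ)) (n := n) (w := w) hl0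
    hlu (fun i _ => by have := hrel i; push_cast; exact this) (by push_cast; exact hend)
    (fun i _ => hw0 i)
  set K := IntermediateField.adjoin ℚ (w '' {j | j ≤ n})
  have hNF : NumberField K := { to_charZero := inferInstance, to_finiteDimensional := hfd }
  let x : ℕ → K := fun i => if h : i ≤ n then
    ⟨w i, IntermediateField.subset_adjoin ℚ _ ⟨i, h, rfl⟩⟩ else 0
  have hx : ∀ i ≤ n, (x i : ℝ) = w i := fun i hi => by simp [x, hi]
  have hxrel : ∀ i < n, x i ^ 2 = (l : K) * x (i + 1) ^ 2 + x (i + 1) := by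
    intro i hi
    apply Subtype.ext
    push_cast
    rw [hx i hi.le, hx (i + 1) hi]
    exact hrel i
  have hxend : x n ^ 2 = (l : K) * ((u : K) * x 0 ^ 2 + x 0) := by
    apply Subtype.ext
    push_cast
    rw [hx n le_rfl, hx 0 (Nat.zero_le _)]
    exact hend
  have hxne : ∀ i ≤ n, x i ≠ 0 := by
    intro i hi h
    have := congrArg (fun z : K => (z : ℝ)) h
    simp only [hx i hi, ZeroMemClass.coe_zero] at this
    exact hw0 i this
  obtain ⟨v, hvl, hvu⟩ := exists_val K hl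
  have hvu1 : v ((u : ℕ) : K) ≤ 1 := by
    have hun : ((u : ℤ)) ≠ 0 := by exact_mod_cast (by omega : u ≠ 0)
    obtain ⟨e, he⟩ := val_int_eq v hl hvu hun
    have : v ((u : ℕ) : K) = v (l : K) ^ e := by rw [← he]; simp
    rw [this]
    exact pow_le_one' hvl.le e
  obtain ⟨y1, y2, y3⟩ := val_solution v hvl hvu1 hxrel hxend hxne
  have hy0 : v (x 0) ≠ 0 := v.ne_zero_iff.2 (hxne 0 (Nat.zero_le _))
  have hodd : ∀ i, Nat.Coprime (2 ^ i) (2 ^ (n + 1) - 1) := by
    intro i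
    apply Nat.Coprime.pow_left
    rw [Nat.coprime_two_left]
    rw [Nat.odd_sub' (Nat.one_le_two_pow)]
    simp [Nat.even_pow]
  have hdeg : ∀ i ≤ n, 2 ^ (n + 1) - 1 ≤ (minpoly ℚ (x i)).natDegree := fun i hi =>
    natDegree_minpoly_ge fun g hg hgw =>
      degree_lower v hl hvu hy0 y1 (hodd i) y3 (y2 i hi) hg hgw
  have hfin : ∀ i ≤ n, Module.finrank ℚ (IntermediateField.adjoin ℚ {x i}) =
      (minpoly ℚ (x i)).natDegree := fun i _ =>
    IntermediateField.adjoin.finrank (Algebra.IsIntegral.isIntegral (x i))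
  have hrank : Module.finrank ℚ K = 2 ^ (n + 1) - 1 := by
    apply le_antisymm hfr
    have h1 := hdeg 0 (Nat.zero_le _)
    rw [← hfin 0 (Nat.zero_le _)] at h1
    exact h1.trans (Submodule.finrank_le
      (Subalgebra.toSubmodule (IntermediateField.adjoin ℚ {x 0}).toSubalgebra))
  refine ⟨K, inferInstance, hNF, hrank, x, ?_, ?_, ?_⟩
  · intro i hi
    have hi' : i ≤ n := by omega
    apply IntermediateField.eq_of_le_of_finrank_le le_top
    rw [IntermediateField.finrank_top', hrank, hfin i hi']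
    exact hdeg i hi'
  · intro i hi
    exact hxrel i (by omega)
  · simpa using hxend

end Pool.Agent.Lib_helper91.QUI
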