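import Mathlib
import Pool.Agent.Lib_helper3.QUI.Bridge
import Pool.Agent.Lib_helper91.QUI.Tower

/-!
Families of `k` polynomials of degree `2 ^ k - 1`.
-/

namespace Pool.Agent.Lib_helper91.QUI

open Pool.Agent.Lib_helper11.CUB Pool.Agent.Lib_helper3.QUI Polynomial

section field

variable {K : Type*} [Field K] [NumberField K]

theorem two_mono {h : ℕ → ℤ} {D E : ℕ} {u : K} {εp εm : ℤ} {x X X' : ℚ} (hDE : D ∣ E)
    (h2 : X' ≤ X) (H : Two h E u εp εm x X) : Two h D u εp εm x X' :=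
  fun n hn => ⟨fun a b => (H n (mul_mem_ZZ_of_dvd hDE hn)).1 a (b.trans h2),
    fun a b => (H n (mul_mem_ZZ_of_dvd hDE hn)).2 a (b.trans h2)⟩

/-- The relation between the signs of two generators along a common conic. -/
def Rel (t s : K) (q : ℚ) (D : ℕ) (C : ℚ) : Prop :=
  ∀ h : ℕ → ℤ, CM h → ∀ x : ℚ, 1 ≤ x → ∀ tp tm sp sm : ℤ,
    Two h D t tp tm x (C * x) → Two h D s sp sm x (C * x) → tp * tm = H h q * (sp * sm)

theorem Rel.mono {t s : K} {q : ℚ} {D E : ℕ} {C C' : ℚ} (hDE : D ∣ E) (hC : C ≤ C')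
    (h : Rel t s q D C) : Rel t s q E C' := by
  intro f hf x hx tp tm sp sm h1 h2
  have hx0 : C * x ≤ C' * x := mul_le_mul_of_nonneg_right hC (by linarith)
  exact h f hf x hx tp tm sp sm (two_mono hDE hx0 h1) (two_mono hDE hx0 h2)

theorem rel_common {k : ℕ} {t s : ℕ → K} {q : ℕ → ℚ}
    (hrel : ∀ i < k, ∃ D : ℕ, 1 ≤ D ∧ ∃ C : ℚ, 1 ≤ C ∧ Rel (t i) (s i) (q i) D C) :
    ∃ D : ℕ, 1 ≤ D ∧ ∃ C : ℚ, 2 ≤ C ∧ ∀ i < k, Rel (t i) (s i) (q i) D C := by
  induction k with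
  | zero => exact ⟨1, le_rfl, 2, le_rfl, fun i hi => absurd hi (Nat.not_lt_zero i)⟩
  | succ k ih =>
    obtain ⟨D, hD, C, hC, h1⟩ := ih (fun i hi => hrel i (by omega))
    obtain ⟨D', hD', C', hC', h2⟩ := hrel k (Nat.lt_succ_self k)
    refine ⟨D * D', Nat.mul_pos hD hD', max C C', hC.trans (le_max_left _ _), fun i hi => ?_⟩
    rcases Nat.lt_succ_iff_lt_or_eq.1 hi with h | rfl
    · exact (h1 i h).mono (dvd_mul_right _ _) (le_max_left _ _)
    · exact h2.mono (dvd_mul_left _ _) (le_max_right _ _)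

/-- The two signs are `1` or `-1`. -/
theorem two_vals {h : ℕ → ℤ} (hh : CM h) {z : K} (hz : z ∉ (⊥ : IntermediateField ℚ K)) {D : ℕ}
    {zp zm : ℤ} {x C : ℚ} (hx : 1 ≤ x) (hC : 2 ≤ C) (H : Two h D z zp zm x (C * x)) :
    (zp = 1 ∨ zp = -1) ∧ (zm = 1 ∨ zm = -1) := by
  have hc1 : x ≤ ((⌈x⌉ : ℤ) : ℚ) := Int.le_ceil x
  have hc2 : ((⌈x⌉ : ℤ) : ℚ) ≤ C * x := by
    have := Int.ceil_lt_add_one x
    nlinarith
  have hm : ∀ j : ℤ, (D : ℚ) * j ∈ ZZ := by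
    intro j
    rw [mem_ZZ]
    exact ⟨D * j, by push_cast; ring⟩
  constructor
  · rw [← (H ((⌈x⌉ : ℤ) : ℚ) (hm _)).1 hc1 hc2]
    exact G_vals' hh hz _
  · rw [← (H ((-⌈x⌉ : ℤ) : ℚ) (hm _)).2 (by push_cast; linarith) (by push_cast; linarith)]
    exact G_vals' hh hz _

/-- The cyclic system. -/
theorem cycle (hd : Odd (Module.finrank ℚ K)) {n : ℕ} {w : ℕ → K}
    (hw : ∀ i ≤ n, w i ∉ (⊥ : IntermediateField ℚ K)) {l u : ℕ} (hl : l.Prime) (hu : 1 ≤ u)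
    (hlu : ¬ IsSquare ((l * u : ℕ) : ℚ)) (hl' : ¬ IsSquare (l : ℚ))
    (r1 : ∀ i < n, w i ^ 2 = l * w (i + 1) ^ 2 + w (i + 1))
    (r2 : w n ^ 2 = l * (u * w 0 ^ 2 + w 0)) :
    ∃ D : ℕ, 1 ≤ D ∧ ∃ C : ℚ, ∀ h : ℕ → ℤ, CM h → h l ^ n * h (l * u) = -1 → ∀ x : ℚ, 1 ≤ x →
      ¬ ∀ z ∈ (List.range (n + 1)).map w, ∃ zp zm : ℤ, Two h D z zp zm x (C * x) := by
  have hlpos : 0 < l := hl.pos
  obtain ⟨D1, hD1, C1, hC1, H1⟩ := rel_common (k := n) (t := w) (s := fun i => w (i + 1))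
    (q := fun _ => (l : ℚ)) (fun i hi => by
      obtain ⟨D, hD, C, hC, h1⟩ := conj_pair hd (hw i (by omega)) (s := w (i + 1)) (q := l) (a := 0)
        (b := 1) (c := 0) (by exact_mod_cast hlpos) hl' (by push_cast; linear_combination r1 i hi)
      exact ⟨D, hD, C, hC, h1⟩)
  obtain ⟨D2, hD2, C2, hC2, H2⟩ : ∃ D : ℕ, 1 ≤ D ∧ ∃ C : ℚ, 1 ≤ C ∧
      Rel (w n) (w 0) ((l * u : ℕ) : ℚ) D C := by
    obtain ⟨D, hD, C, hC, h1⟩ := conj_pair hd (hw n le_rfl) (s := w 0) (q := ((l * u : ℕ) : ℚ))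
      (a := 0) (b := l) (c := 0) (by exact_mod_cast Nat.mul_pos hlpos hu) hlu
      (by push_cast; linear_combination r2)
    exact ⟨D, hD, C, hC, h1⟩
  refine ⟨D1 * D2, Nat.mul_pos hD1 hD2, max C1 C2, fun h hh hlu1 x hx hall => ?_⟩
  have hC : 2 ≤ max C1 C2 := hC1.trans (le_max_left _ _)
  have hall' : ∀ i ≤ n, ∃ zp zm : ℤ, Two h (D1 * D2) (w i) zp zm x (max C1 C2 * x) := by
    intro i hi
    exact hall (w i) (List.mem_map.2 ⟨i, List.mem_range.2 (by omega), rfl⟩)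
  have hex : ∀ i, ∃ zz : ℤ × ℤ, i ≤ n → Two h (D1 * D2) (w i) zz.1 zz.2 x (max C1 C2 * x) := by
    intro i
    by_cases hi : i ≤ n
    · obtain ⟨zp, zm, h3⟩ := hall' i hi
      exact ⟨(zp, zm), fun _ => h3⟩
    · exact ⟨(1, 1), fun h => absurd h hi⟩
  choose zz hzz using hex
  have key : ∀ i ≤ n, (zz 0).1 * (zz 0).2 = h l ^ i * ((zz i).1 * (zz i).2) := by
    intro i
    induction i with
    | zero => intro _; simp
    | succ i ih =>
      intro hi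
      have h4 := (H1 i (by omega)).mono (dvd_mul_right D1 D2) (le_max_left C1 C2) h hh x hx _ _ _ _
        (hzz i (by omega)) (hzz (i + 1) hi)
      simp only [H_nat hh] at h4
      rw [ih (by omega), h4, pow_succ]
      ring
  have h5 := H2.mono (dvd_mul_left D2 D1) (le_max_right C1 C2) h hh x hx _ _ _ _
    (hzz n le_rfl) (hzz 0 (Nat.zero_le _))
  rw [H_nat hh] at h5
  have h6 := key n le_rfl
  rw [h5, ← mul_assoc, hlu1] at h6
  obtain ⟨v1, v2⟩ := two_vals hh (hw 0 (Nat.zero_le _)) hx hC (hzz 0 (Nat.zero_le _))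
  rcases v1 with v1 | v1 <;> rcases v2 with v2 | v2 <;> rw [v1, v2] at h6 <;> norm_num at h6

/-- Values of the minimal polynomials of `v z` and of `- v z`. -/
theorem eval_e (hd : Odd (Module.finrank ℚ K)) {h : ℕ → ℤ} (hh : CM h) {z : K}
    (hz : z ∉ (⊥ : IntermediateField ℚ K))
    (hdeg : (minpoly ℚ z).natDegree = Module.finrank ℚ K) {v : ℕ} (hv : 1 ≤ v)
    (hint : IsIntegral ℤ ((v : K) * z)) {e : ℤ} (he : e = 1 ∨ e = -1) (n : ℤ) :
    h ((minpoly ℤ ((v : K) * z)).eval (e * n)).natAbs =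
      h ((minpoly ℤ (((e * v : ℤ) : K) * z)).eval n).natAbs := by
  have hvq : (v : ℚ) ≠ 0 := by exact_mod_cast (by omega : v ≠ 0)
  have e2 : (e : ℚ) * e = 1 := by rcases he with rfl | rfl <;> norm_num
  have h1 := G_scaled' hd hh hz hdeg hv hint he (k := e * n / v) (n := n) (by
    field_simp; linear_combination (-(n : ℚ)) * e2)
  have h2 := G_scaled' hd hh hz hdeg hv hint (e := 1) (Or.inl rfl) (k := e * n / v) (n := e * n) (by
    push_cast; field_simp)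
  rw [h1, ← h2]
  simp

/-- Windows for the minimal polynomials of a cyclic system. -/
theorem cycle_windows (hd : Odd (Module.finrank ℚ K)) (h1 : 1 < Module.finrank ℚ K) {n : ℕ}
    {w : ℕ → K} (hw : ∀ i ≤ n, (minpoly ℚ (w i)).natDegree = Module.finrank ℚ K) {l u : ℕ}
    (hl : l.Prime) (hu : 1 ≤ u) (hlu : ¬ IsSquare ((l * u : ℕ) : ℚ)) (hl' : ¬ IsSquare (l : ℚ))
    (r1 : ∀ i < n, w i ^ 2 = l * w (i + 1) ^ 2 + w (i + 1))
    (r2 : w n ^ 2 = l * (u * w 0 ^ 2 + w 0)) :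
    ∃ F : Fin (n + 1) → ℤ[X], (∀ i, (F i).Monic ∧ Irreducible (F i) ∧
      (F i).natDegree = Module.finrank ℚ K) ∧
      ∃ C : ℕ, ∀ h : ℕ → ℤ, CM h → h l ^ n * h (l * u) = -1 → ∀ x : ℕ, 1 ≤ x →
        ∃ i : Fin (n + 1), ∃ e : ℤ, (e = 1 ∨ e = -1) ∧ ∀ s : ℤ, (s = 1 ∨ s = -1) →
          ∃ m : ℕ, x ≤ m ∧ m ≤ C * x ∧ h ((F i).eval (e * m)).natAbs = s := by
  have hb : ∀ i ≤ n, w i ∉ (⊥ : IntermediateField ℚ K) := fun i hi => bot_of_deg (hw i hi) h1
  obtain ⟨D, hD, C, core⟩ := cycle hd hb hl hu hlu hl' r1 r2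
  obtain ⟨m, hm, H⟩ := windows hd h1 (L := (List.range (n + 1)).map w) (by
    intro z hz
    obtain ⟨i, hi, rfl⟩ := List.mem_map.1 hz
    exact hw i (by have := List.mem_range.1 hi; omega))
    (P := fun h => h l ^ n * h (l * u) = -1) hD core
  obtain ⟨hint, C', H⟩ := H m hm dvd_rfl
  have hmem : ∀ i ≤ n, w i ∈ (List.range (n + 1)).map w := fun i hi =>
    List.mem_map.2 ⟨i, List.mem_range.2 (by omega), rfl⟩
  have hmq : (m : ℚ) ≠ 0 := by exact_mod_cast (by omega : m ≠ 0)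
  refine ⟨fun i => minpoly ℤ ((m : K) * w i), fun i => ?_, C', fun h hh hP x hx => ?_⟩
  · have hi : (i : ℕ) ≤ n := by have := i.2; omega
    have hI := hint _ (hmem i hi)
    refine ⟨minpoly.monic hI, minpoly.irreducible hI, ?_⟩
    have h2 : (minpoly ℚ ((m : K) * w i)).natDegree = Module.finrank ℚ K := by
      have := deg_mul (hw i hi) hmq
      rwa [Rat.cast_natCast] at this
    rw [minpoly.isIntegrallyClosed_eq_field_fractions' ℚ hI, (minpoly.monic hI).natDegree_map] at h2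
    exact h2
  · obtain ⟨z, hz, e, he, Hs⟩ := H h hh hP x hx
    obtain ⟨i, hi, rfl⟩ := List.mem_map.1 hz
    have hi' := List.mem_range.1 hi
    refine ⟨⟨i, hi'⟩, e, he, fun s hs => ?_⟩
    obtain ⟨k, k1, k2, k3⟩ := Hs s hs
    refine ⟨k, k1, k2, ?_⟩
    rw [← k3]
    exact eval_e hd hh (hb i (by omega)) (hw i (by omega)) hm (hint _ hz) he k

end field

/-- For every `k ≥ 2` and every prime `p` there are `k` irreducible polynomials of degree
`2 ^ k - 1` such that every completely multiplicative sign function with `h p = -1` takes both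
signs along one of them, in every window. -/
theorem tower_signs (k : ℕ) (hk : 2 ≤ k) (p : ℕ) (hp : p.Prime) :
    ∃ F : Fin k → ℤ[X], (∀ i, (F i).Monic ∧ Irreducible (F i) ∧ (F i).natDegree = 2 ^ k - 1) ∧
      ∃ C : ℕ, ∀ h : ℕ → ℤ, CM h → h p = -1 → ∀ x : ℕ, 1 ≤ x →
        ∃ i : Fin k, ∃ e : ℤ, (e = 1 ∨ e = -1) ∧ ∀ s : ℤ, (s = 1 ∨ s = -1) →
          ∃ n : ℕ, x ≤ n ∧ n ≤ C * x ∧ h ((F i).eval (e * n)).natAbs = s := by
  -- the choice of `l` and `u`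
  obtain ⟨l, u, hl, hu, hlu, hc⟩ : ∃ l u : ℕ, l.Prime ∧ 1 ≤ u ∧ ¬ IsSquare (l * u) ∧
      ∀ h : ℕ → ℤ, CM h → h p = -1 → h l ^ (k - 1) * h (l * u) = -1 := by
    rcases Nat.even_or_odd k with he | ho
    · -- `k` even
      obtain ⟨l, hl, hlp⟩ : ∃ l : ℕ, l.Prime ∧ l ≠ p := by
        rcases eq_or_ne p 2 with rfl | h2
        · exact ⟨3, Nat.prime_three, by norm_num⟩
        · exact ⟨2, Nat.prime_two, fun h => h2 h.symm⟩
      refine ⟨l, p, hl, hp.one_lt.le, ?_, ?_⟩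
      · rintro ⟨r, hr⟩
        have h1 : l ∣ r * r := ⟨p, hr.symm⟩
        have h2 : l ∣ r := by rcases (Nat.Prime.dvd_mul hl).1 h1 with h | h <;> exact h
        obtain ⟨c, rfl⟩ := h2
        have h3 : p = l * (c * c) := by
          apply Nat.eq_of_mul_eq_mul_left hl.pos
          rw [hr]; ring
        have h4 : l ∣ p := ⟨c * c, h3⟩
        exact hlp ((Nat.prime_dvd_prime_iff_eq hl hp).1 h4)
      · intro h hh hhp
        rw [hh.mul l p hl.one_lt.le hp.one_lt.le, hhp, ← mul_assoc, ← pow_succ,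
          Nat.sub_add_cancel (by omega : 1 ≤ k)]
        rcases hh.values l hl.one_lt.le with h1 | h1
        · rw [h1]; simp
        · rw [h1, he.neg_one_pow]; simp
    · -- `k` odd
      refine ⟨p, 1, hp, le_rfl, ?_, ?_⟩
      · rw [mul_one]
        rintro ⟨r, hr⟩
        exact (Nat.prime_mul_iff.1 (hr ▸ hp)).elim (fun h => by
          obtain ⟨h1, h2⟩ := h; exact absurd h2 h1.ne_one) (fun h => by
          obtain ⟨h1, h2⟩ := h; exact absurd h2 h1.ne_one)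
      · intro h hh hhp
        rw [mul_one, ← pow_succ, Nat.sub_add_cancel (by omega : 1 ≤ k), hhp, ho.neg_one_pow]
  have hlu' : ¬ IsSquare ((l * u : ℕ) : ℚ) := by
    rw [Rat.isSquare_natCast_iff]; exact hlu
  have hl' : ¬ IsSquare (l : ℚ) := by
    rw [Rat.isSquare_natCast_iff]
    rintro ⟨r, hr⟩
    exact (Nat.prime_mul_iff.1 (hr ▸ hl)).elim (fun h => by
      obtain ⟨h1, h2⟩ := h; exact absurd h2 h1.ne_one) (fun h => by
      obtain ⟨h1, h2⟩ := h; exact absurd h2 h1.ne_one)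
  obtain ⟨K, _, _, hfin, w, hw, r1, r2⟩ := tower k hk l hl u hu
  obtain ⟨n, rfl⟩ : ∃ n, k = n + 1 := ⟨k - 1, by omega⟩
  have hpow : 2 ^ (n + 1) = 2 * 2 ^ n := by ring
  have hpow' : 2 ≤ 2 ^ n := by
    calc 2 = 2 ^ 1 := by norm_num
      _ ≤ 2 ^ n := Nat.pow_le_pow_right (by norm_num) (by omega)
  have hd : Odd (Module.finrank ℚ K) := by
    rw [hfin, hpow]
    exact ⟨2 ^ n - 1, by omega⟩
  have h1 : 1 < Module.finrank ℚ K := by rw [hfin]; omega
  have hdeg : ∀ i ≤ n, (minpoly ℚ (w i)).natDegree = Module.finrank ℚ K := by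
    intro i hi
    rw [← IntermediateField.adjoin.finrank (Algebra.IsIntegral.isIntegral (w i)),
      hw i (by omega), IntermediateField.finrank_top']
  obtain ⟨F, hF, C, hC⟩ := cycle_windows hd h1 hdeg hl hu hlu' hl'
    (fun i hi => r1 i (by omega)) (by simpa using r2)
  refine ⟨F, fun i => ?_, C, fun h hh hp' x hx => ?_⟩
  · obtain ⟨a, b, c⟩ := hF i
    exact ⟨a, b, by rw [c, hfin]⟩
  · exact hC h hh (by simpa using hc h hh hp') x hx

end Pool.Agent.Lib_helper91.QUI
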