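import Mathlib

/-!
# The system `w_i^2 = l w_{i+1}^2 + w_{i+1}`, `w_n^2 = l (u w_0^2 + w_0)`: a real solution
-/

set_option autoImplicit false

namespace Pool.Agent.Lib_helper91.QUI

open Real

/-- The positive root `y` of `l y^2 + y = x^2`. -/
noncomputable def stepR (l : ℝ) (x : ℝ) : ℝ := (-1 + √(1 + 4 * l * x ^ 2)) / (2 * l)

theorem stepR_rel {l : ℝ} (hl : 0 < l) (x : ℝ) : l * stepR l x ^ 2 + stepR l x = x ^ 2 := by
  have h := Real.sq_sqrt (show 0 ≤ 1 + 4 * l * x ^ 2 by positivity)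
  unfold stepR
  set s := √(1 + 4 * l * x ^ 2)
  have hl' := hl.ne'
  field_simp
  nlinarith

theorem stepR_nonneg {l : ℝ} (hl : 0 < l) (x : ℝ) : 0 ≤ stepR l x := by
  unfold stepR
  apply div_nonneg _ (by positivity)
  have : (1 : ℝ) ≤ √(1 + 4 * l * x ^ 2) := by
    rw [Real.one_le_sqrt]
    have : 0 ≤ 4 * l * x ^ 2 := by positivity
    linarith
  linarith

theorem stepR_continuous {l : ℝ} (hl : 0 < l) : Continuous (stepR l) := by
  unfold stepR
  have := hl.ne'
  fun_prop

theorem stepR_ne_zero {l : ℝ} (hl : 0 < l) {x : ℝ} (hx : x ≠ 0) : stepR l x ≠ 0 := by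
  intro h
  have := stepR_rel hl x
  rw [h] at this
  apply hx
  have h2 : x ^ 2 = 0 := by linarith
  exact pow_eq_zero_iff (two_ne_zero) |>.1 h2

theorem iter_sq_le {l : ℝ} (hl : 2 ≤ l) (x : ℝ) (n : ℕ) (hn : 1 ≤ n) :
    ((stepR l)^[n] x) ^ 2 ≤ x ^ 2 / 2 := by
  induction n, hn using Nat.le_induction with
  | base =>
    have h := stepR_rel (show 0 < l by linarith) x
    have h2 := stepR_nonneg (show 0 < l by linarith) x
    simp only [Function.iterate_one]
    nlinarith [sq_nonneg (stepR l x)]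
  | succ n hn ih =>
    rw [Function.iterate_succ_apply']
    set y := (stepR l)^[n] x
    have h := stepR_rel (show 0 < l by linarith) y
    have h2 := stepR_nonneg (show 0 < l by linarith) y
    nlinarith [sq_nonneg (stepR l y), sq_nonneg y]

theorem real_solution (l u : ℝ) (hl : 2 ≤ l) (hu : 1 ≤ u) (n : ℕ) (hn : 1 ≤ n) :
    ∃ w : ℕ → ℝ, (∀ i, w i ≠ 0) ∧ (∀ i, w i ^ 2 = l * w (i + 1) ^ 2 + w (i + 1)) ∧
      w n ^ 2 = l * (u * w 0 ^ 2 + w 0) := by
  have hl0 : 0 < l := by linarith
  let F : ℝ → ℝ := fun x => ((stepR l)^[n] x) ^ 2 - l * (u * x ^ 2 + x)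
  have hF : Continuous F := by
    have := (stepR_continuous hl0).iterate n
    fun_prop
  have hu0 : 0 < u := by linarith
  have hab : (-2 : ℝ) ≤ -1 / u := by
    rw [le_div_iff₀ hu0]; linarith
  have h0 : F (-2) ≤ 0 := by
    have := iter_sq_le hl (-2) n hn
    simp only [F]
    nlinarith
  have h1 : 0 ≤ F (-1 / u) := by
    simp only [F]
    have : u * (-1 / u) ^ 2 + -1 / u = 0 := by field_simp; ring
    rw [this, mul_zero, sub_zero]
    positivity
  obtain ⟨x, hx, hx0⟩ := intermediate_value_Icc hab hF.continuousOn ⟨h0, h1⟩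
  have hxn : x ≠ 0 := by
    have : x ≤ -1 / u := hx.2
    have h3 : -1 / u < 0 := div_neg_of_neg_of_pos (by norm_num) hu0
    linarith
  refine ⟨fun i => (stepR l)^[i] x, ?_, ?_, ?_⟩
  · intro i
    induction i with
    | zero => simpa using hxn
    | succ i ih =>
      simp only [Function.iterate_succ_apply']
      exact stepR_ne_zero hl0 ih
  · intro i
    simp only [Function.iterate_succ_apply']
    exact (stepR_rel hl0 _).symm
  · simp only [F] at hx0
    simp only [Function.iterate_zero, id]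
    linarith

end Pool.Agent.Lib_helper91.QUI
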